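import Pool.Agent.Helper11.BC.Defs

/-!
# Project BC: the statements of the blocks

Every block has its own captain and its own files; this file only fixes the interfaces.
-/

open scoped MatrixGroups UpperHalfPlane

namespace Pool.Agent.Helper11.BC

/-- Block NECK (helper14), with the hyperbolic estimates of block GEO (helper99).
Every chain is a linear combination of lists of points.  For a frame `n` and a set `A`:
`sdp n [] = 1`, `sdp n [g] = bdp g`, `sdp n l = int (root n l) * Σ (-1)^i sdp n (l.eraseIdx i)`;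
`sdm n = sdp (n * flip)`; for a list `D` with `p` elements in `A` and `q` elements not in `A`:
`Sc D = ± sdm (D ∩ A) * sdp (D \ A)` if `p ≤ 1` or `q ≤ 1` (for `p = 1`, the element of `A` at place
`i`: sign `(-1)^i`; for `q = 1`, the element not in `A` at place `j`: sign `(-1)^(|D| - 1 - j)`), and
`Sc D = int (neckMid (D ∩ A) (D \ A)) * Σ (-1)^i Sc (D.eraseIdx i)` if `p, q ≥ 2`; `Sc` is a chain map;
`Lam l = int (first l) * (y l - Sc l - Σ (-1)^i Lam (l.eraseIdx i))`, `y l = l.map int`;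
`Xi D = bdp n * sdp D` if `p = 0`, `Xi D = (-1)^|D| sdm D * bdp (n * flip)` if `q = 0`, `Xi D = 0` if
`D` is mixed; `gt n A C' s t = F (Lam C' + Xi C') s t`. -/
theorem exists_neck {N : ℕ} (hN : 3 ≤ N) (S : Sys N) : Nonempty (Neck S) := by
  sorry

/-- Block GLOB (helper17).  `Θ(Y; s) = f0 s Y`, `Fc(C; s, t) = F (C.map int) s t`;
`g_n(C'; τ₁ → τ₂)` is the sum over the subsets `A` of `C'` of
`gt n A C' (gam n lo_A) (gam n (max lo_A hi_A))`, where `lo_A` is the maximum of `τ₁` and of the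
parameters (cut to `[τ₁, τ₂]`) of the elements of `C'` not in `A`, and `hi_A` the minimum of `τ₂` and
of the parameters of the elements of `A`; `g(C'; s → t)` is half the difference of the values for the
line from `s` to `t` and for the reversed line; `fg(C'; z) = g(g₁⁻¹ C'; i → g₁⁻¹ z)`;
`E(C; s, t) = Fc(C; s, t) - Σ (-1)^i (fg(C_i; t) - fg(C_i; s))` is bounded and exactly additive;
`ψ(Y) = Θ(Y; c(Y)) + Σ (-1)^j E(Y_j; c(Y_j), c(Y))` with `c(g₁, …) = pos g₁`. -/
theorem main_of_neck {N : ℕ} (hN : 2 ≤ N) (S : Sys N) (K : Neck S) :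
    ∃ (ψ : List G → ℝ) (M : ℝ), (∀ Y, Generic Y → Y.length = N + 1 → |ψ Y| ≤ M) ∧
      (∀ (g : G) Y, ψ (Y.map (g * ·)) = ψ Y) ∧
      ∀ W, Generic W → W.length = N + 2 → dl ψ W = S.fW (W.map GP.int) := by
  sorry

/-- Block EVAL (helper34).  The extension to boundary points: `evl [] φ = φ []`,
`evl (int g :: l) φ = evl l (fun w => φ (g :: w))`,
`evl (bdp h :: l) φ = m (fun z => evl l (fun w => φ (h * toSL2R z :: w)))`, `m` a mean on bounded
Lipschitz functions on the upper half plane, invariant under `z ↦ a z + b`. -/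
theorem exists_sys {N : ℕ} (P : PSys N) :
    ∃ S : Sys N, ∀ W : List G, W.length = N + 2 → S.fW (W.map GP.int) = P.fW W := by
  sorry

/-- Block POT (helper24).  `α_X(z)(v) = D_v f(z, ·, X)` at `z`, `ω_D`, the primitive `λ_D` with
ideal vertex `g₁ • ∞` for the first element `g₁` of `D`; `F` is the difference of the values of a
potential of the closed form `α_X - Σ (-1)^i λ_{X_i}`; `A` is the integral of `α_X` over the
geodesic. -/
theorem exists_psys {N : ℕ} (hN : 2 ≤ N) (b : List ℍ → ℝ) (M : ℝ) (hb : IsCoc (N + 1) b M) :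
    ∃ P : PSys N, ∀ W : List G, W.length = N + 2 → P.fW W = sm b (W.map pos) := by
  sorry

/-- Block RED (helper87), first version (the primitive `h` need not be continuous). -/
theorem reduction {N : ℕ}
    (H : ∀ (b : List ℍ → ℝ) (M : ℝ), IsCoc (N + 1) b M →
      ∃ (ψ : List G → ℝ) (M' : ℝ), (∀ Y, Generic Y → Y.length = N + 1 → |ψ Y| ≤ M') ∧
        (∀ (g : G) Y, ψ (Y.map (g * ·)) = ψ Y) ∧
        ∀ W, Generic W → W.length = N + 2 → dl ψ W = sm b (W.map pos))
    (b : (Fin (N + 2) → G) → ℝ) (hc : Continuous b)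
    (hi : ∀ (g : G) (x : Fin (N + 2) → G), b (fun j => g * x j) = b x)
    (hb : ∃ C : ℝ, ∀ x, |b x| ≤ C)
    (hz : ∀ x : Fin (N + 3) → G,
      ∑ i : Fin (N + 3), (-1 : ℝ) ^ (i : ℕ) * b (fun j => x (Fin.succAbove i j)) = 0) :
    ∃ h : (Fin (N + 1) → G) → ℝ,
      (∀ (g : G) (x : Fin (N + 1) → G), h (fun j => g * x j) = h x) ∧
      (∃ C : ℝ, ∀ x, |h x| ≤ C) ∧
      ∀ x : Fin (N + 2) → G,
        b x = ∑ i : Fin (N + 2), (-1 : ℝ) ^ (i : ℕ) * h (fun j => x (Fin.succAbove i j)) := by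
  sorry

/-- The final theorem, first layer (degree `n = N + 1 ≥ 4`, the primitive need not be continuous).
The second layer (continuous primitive) is in `Meas.lean`. -/
theorem final_disc {N : ℕ} (hN : 3 ≤ N) (b : (Fin (N + 2) → G) → ℝ) (hc : Continuous b)
    (hi : ∀ (g : G) (x : Fin (N + 2) → G), b (fun j => g * x j) = b x)
    (hb : ∃ C : ℝ, ∀ x, |b x| ≤ C)
    (hz : ∀ x : Fin (N + 3) → G,
      ∑ i : Fin (N + 3), (-1 : ℝ) ^ (i : ℕ) * b (fun j => x (Fin.succAbove i j)) = 0) :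
    ∃ h : (Fin (N + 1) → G) → ℝ,
      (∀ (g : G) (x : Fin (N + 1) → G), h (fun j => g * x j) = h x) ∧
      (∃ C : ℝ, ∀ x, |h x| ≤ C) ∧
      ∀ x : Fin (N + 2) → G,
        b x = ∑ i : Fin (N + 2), (-1 : ℝ) ^ (i : ℕ) * h (fun j => x (Fin.succAbove i j)) := by
  refine reduction (fun b' M hb' => ?_) b hc hi hb hz
  obtain ⟨P, hP⟩ := exists_psys (by omega) b' M hb'
  obtain ⟨S, hS⟩ := exists_sys P
  obtain ⟨K⟩ := exists_neck hN S
  obtain ⟨ψ, M', h1, h2, h3⟩ := main_of_neck (by omega) S K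
  exact ⟨ψ, M', h1, h2, fun W hW hl => by rw [h3 W hW hl, hS W hl, hP W hl]⟩

end Pool.Agent.Helper11.BC
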