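import Mathlib

/-!
# Project BC: bounded cohomology of `SL(2, ℝ)` (interface file)

Points: `GP.int g` is the point `g • i` of the upper half plane, `GP.bdp g` the boundary point
`g • ∞`.  All cochains are functions on lists; no alternation is used anywhere.
-/

open scoped MatrixGroups UpperHalfPlane

namespace Pool.Agent.Helper11.BC

/-- The group. -/
abbrev G : Type := SL(2, ℝ)

/-- A point of the upper half plane (with a frame) or a boundary point. -/
inductive GP : Type
  | int (g : G) : GP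
  | bdp (g : G) : GP

instance : SMul G GP := ⟨fun h p => match p with
  | .int g => .int (h * g)
  | .bdp g => .bdp (h * g)⟩

@[simp] theorem smul_int (h g : G) : h • GP.int g = GP.int (h * g) := rfl
@[simp] theorem smul_bdp (h g : G) : h • GP.bdp g = GP.bdp (h * g) := rfl

/-- The point `g • i`. -/
noncomputable def pos (g : G) : ℍ := g • UpperHalfPlane.I

/-- `g • ∞ = h • ∞`. -/
def SameEnd (g h : G) : Prop := (g⁻¹ * h) 1 0 = 0

/-- The boundary points of the elements of the list are pairwise different. -/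
def Generic (l : List G) : Prop := l.Pairwise fun g h => ¬ SameEnd g h

/-- The alternating sum over the faces of a list. -/
noncomputable def dl {T M : Type*} [AddCommGroup M] [Module ℝ M] (Φ : List T → M) (l : List T) :
    M :=
  ∑ i ∈ Finset.range l.length, (-1 : ℝ) ^ i • Φ (l.eraseIdx i)

/-- The evaluated data.  `N = n - 1`, where `n` is the degree of the cocycle.
* `f0 s Y = f(s, Y)` (`N + 1` points in `Y`), `fW W = f(W)` (`N + 2` points).
* `F X s t` (`N` points in `X`): the integral from `s` to `t` of the closed form of `X`.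
* `A X s t`: the integral over the geodesic from `s` to `t` of `f(z, dz, X)`. -/
structure Sys (N : ℕ) where
  f0 : ℍ → List GP → ℝ
  fW : List GP → ℝ
  F : List GP → ℍ → ℍ → ℝ
  A : List GP → ℍ → ℍ → ℝ
  C : ℝ
  one_le_C : 1 ≤ C
  f0_bdd : ∀ s Y, Y.length = N + 1 → |f0 s Y| ≤ C
  f0_inv : ∀ (g : G) s Y, f0 (g • s) (Y.map (g • ·)) = f0 s Y
  f0_bd : ∀ s W, W.length = N + 2 → dl (f0 s) W = fW W
  F_inv : ∀ (g : G) X s t, F (X.map (g • ·)) (g • s) (g • t) = F X s t
  F_add : ∀ X s t u, X.length = N → F X s t + F X t u = F X s u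
  F_bd : ∀ Y s t, Y.length = N + 1 → dl (fun X => F X s t) Y = f0 s Y - f0 t Y
  FA : ∀ X s t, X.length = N → |F X s t - A X s t| ≤ C
  A_growth : ∀ X s t, X.length = N → |A X s t| ≤ C * dist s t
  A_lip : ∀ (l₁ l₂ : List GP) (g h : G) (s t : ℍ), (l₁ ++ GP.int g :: l₂).length = N →
    |A (l₁ ++ GP.int g :: l₂) s t - A (l₁ ++ GP.int h :: l₂) s t| ≤
      C * dist s t * dist (pos g) (pos h)
  A_par : ∀ (l₁ l₂ : List GP) (g p : G) (s t : ℍ), p 1 0 = 0 →
    A (l₁ ++ GP.bdp (g * p) :: l₂) s t = A (l₁ ++ GP.bdp g :: l₂) s t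

/-- The same data on interior points (frames), before the extension to boundary points. -/
structure PSys (N : ℕ) where
  f0 : ℍ → List G → ℝ
  fW : List G → ℝ
  F : List G → ℍ → ℍ → ℝ
  A : List G → ℍ → ℍ → ℝ
  C : ℝ
  one_le_C : 1 ≤ C
  f0_bdd : ∀ s Y, Y.length = N + 1 → |f0 s Y| ≤ C
  f0_lip : ∀ (l₁ l₂ : List G) (g h : G) (s : ℍ), (l₁ ++ g :: l₂).length = N + 1 →
    SameEnd g h → |f0 s (l₁ ++ g :: l₂) - f0 s (l₁ ++ h :: l₂)| ≤ C * dist (pos g) (pos h)
  f0_inv : ∀ (g : G) s Y, f0 (g • s) (Y.map (g * ·)) = f0 s Y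
  f0_bd : ∀ s W, W.length = N + 2 → dl (f0 s) W = fW W
  F_inv : ∀ (g : G) X s t, F (X.map (g * ·)) (g • s) (g • t) = F X s t
  F_add : ∀ X s t u, X.length = N → F X s t + F X t u = F X s u
  F_bd : ∀ Y s t, Y.length = N + 1 → dl (fun X => F X s t) Y = f0 s Y - f0 t Y
  F_lip : ∀ (l₁ l₂ : List G) (g h : G) (s t : ℍ), (l₁ ++ g :: l₂).length = N →
    SameEnd g h → |F (l₁ ++ g :: l₂) s t - F (l₁ ++ h :: l₂) s t| ≤
      C * (1 + dist s t) * dist (pos g) (pos h)
  FA : ∀ X s t, X.length = N → |F X s t - A X s t| ≤ C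
  A_growth : ∀ X s t, X.length = N → |A X s t| ≤ C * dist s t
  A_lip : ∀ (l₁ l₂ : List G) (g h : G) (s t : ℍ), (l₁ ++ g :: l₂).length = N →
    |A (l₁ ++ g :: l₂) s t - A (l₁ ++ h :: l₂) s t| ≤ C * dist s t * dist (pos g) (pos h)

/-- The smoothing kernel (an invariant probability density on the upper half plane). -/
noncomputable def ker (z w : ℍ) : ℝ :=
  1 / (4 * Real.pi) * ((Real.cosh (dist z w / 2)) ^ 4)⁻¹

/-- Smoothing in all variables. -/
noncomputable def sm : (List ℍ → ℝ) → List ℍ → ℝ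
  | b, [] => b []
  | b, z :: l => ∫ w : ℍ, ker z w * sm (fun l' => b (w :: l')) l

/-- A bounded continuous invariant cocycle on the upper half plane with `m + 1` variables. -/
structure IsCoc (m : ℕ) (b : List ℍ → ℝ) (M : ℝ) : Prop where
  bdd : ∀ l, |b l| ≤ M
  cont : ∀ k, Continuous fun z : Fin k → ℍ => b (List.ofFn z)
  inv : ∀ (g : G) l, b (l.map (g • ·)) = b l
  coc : ∀ W, W.length = m + 2 → dl b W = 0

/-! ### Frames and lines -/

/-- The point `i e^τ`. -/
noncomputable def vert (τ : ℝ) : ℍ :=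
  ⟨⟨0, Real.exp τ⟩, Real.exp_pos τ⟩

/-- The geodesic line of the frame `n`, from `n • 0` to `n • ∞`, with unit speed. -/
noncomputable def gam (n : G) (τ : ℝ) : ℍ := n • vert τ

/-- The element `z ↦ -1/z`. -/
def flip : G := ⟨!![0, -1; 1, 0], by simp⟩

/-- The boundary point `g • ∞` projects to the line of `n` at or beyond the parameter `τ`. -/
def Ahead (n : G) (τ : ℝ) (g : G) : Prop := |(n⁻¹ * g) 1 0| * Real.exp τ ≤ |(n⁻¹ * g) 0 0|

/-- The boundary point `g • ∞` projects to the line of `n` at or before the parameter `τ`. -/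
def Behind (n : G) (τ : ℝ) (g : G) : Prop := |(n⁻¹ * g) 0 0| ≤ |(n⁻¹ * g) 1 0| * Real.exp τ

/-- The coordinate of `g • ∞` in the frame `n` (`0` if it is `∞`). -/
noncomputable def xc (n g : G) : ℝ := (n⁻¹ * g) 0 0 / (n⁻¹ * g) 1 0

/-- The maximum of a list of real numbers (`0` for the empty list). -/
noncomputable def lmax : List ℝ → ℝ
  | [] => 0
  | [x] => x
  | x :: y :: l => max x (lmax (y :: l))

/-- The minimum of a list of real numbers (`0` for the empty list). -/
noncomputable def lmin : List ℝ → ℝ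
  | [] => 0
  | [x] => x
  | x :: y :: l => min x (lmin (y :: l))

/-- The radius `(max - min)/2` of the coordinates of `D` in the frame `n`. -/
noncomputable def rad (n : G) (D : List G) : ℝ :=
  (lmax (D.map (xc n)) - lmin (D.map (xc n))) / 2

open Classical in
/-- The frame (its point is the top of the half circle over the coordinates of `D`, seen from
`n • ∞`). -/
noncomputable def root (n : G) (D : List G) : G :=
  if h : 0 < rad n D then
    n * UpperHalfPlane.toSL2R ⟨⟨(lmax (D.map (xc n)) + lmin (D.map (xc n))) / 2, rad n D⟩, h⟩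
  else n

open Classical in
/-- The frame of the line from `b • ∞` to `a • ∞`. -/
noncomputable def lineBA (a b : G) : G :=
  if h : a 0 0 * b 1 0 - a 1 0 * b 0 0 = 0 then a else
    ⟨!![a 0 0, b 0 0 / (a 0 0 * b 1 0 - a 1 0 * b 0 0);
        a 1 0, b 1 0 / (a 0 0 * b 1 0 - a 1 0 * b 0 0)], by
      rw [Matrix.det_fin_two_of]
      field_simp⟩

/-- Beginning of the neck of `(A | B)` on the line `lineBA a₀ b₀` of the first elements. -/
noncomputable def neckLo (A B : List G) : ℝ :=
  lmax (B.tail.map fun b => Real.log |xc (lineBA (A.headD 1) (B.headD 1)) b|)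

/-- End of the neck of `(A | B)`. -/
noncomputable def neckHi (A B : List G) : ℝ :=
  lmin (A.tail.map fun a => Real.log |xc (lineBA (A.headD 1) (B.headD 1)) a|)

/-- The middle of the neck of `(A | B)`: the cone point `z_D` for `|A|, |B| ≥ 2`.  (It is moved by
`O(exp (-L/2))` only, so no average is needed: note 1902, S3.) -/
noncomputable def neckMid (A B : List G) : G :=
  lineBA (A.headD 1) (B.headD 1) *
    UpperHalfPlane.toSL2R (vert ((neckLo A B + neckHi A B) / 2))

/-! ### The abstract result of the block NECK, used by the block GLOB -/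

/-- The functions `g(C'; s → t)` for one type: `gt n A C' s t`, where `n` is the frame of the line,
`A` the set of the elements ahead, and `C'` a list of `N - 1` elements. -/
structure Neck {N : ℕ} (S : Sys N) where
  gt : G → Finset G → List G → ℍ → ℍ → ℝ
  K : ℝ
  one_le_K : 1 ≤ K
  gt_add : ∀ n A C' s t u, C'.length + 1 = N → gt n A C' s t + gt n A C' t u = gt n A C' s u
  gt_growth : ∀ n A C' s t, C'.length + 1 = N → |gt n A C' s t| ≤ K * (1 + dist s t)
  gt_inv : ∀ (h n : G) (A A' : Finset G) C' s t, (∀ g ∈ C', (h * g ∈ A' ↔ g ∈ A)) →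
    gt (h * n) A' (C'.map (h * ·)) (h • s) (h • t) = gt n A C' s t
  neck : ∀ (n : G) (τ₁ τ₂ : ℝ) (A : Finset G) (C : List G), τ₁ ≤ τ₂ → Generic C → C.length = N →
    (∀ g ∈ C, g ∈ A → Ahead n τ₂ g) → (∀ g ∈ C, g ∉ A → Behind n τ₁ g) →
    |S.F (C.map GP.int) (gam n τ₁) (gam n τ₂) -
      dl (fun C' => gt n A C' (gam n τ₁) (gam n τ₂)) C| ≤ K
  close : ∀ C₀ : ℝ, ∃ K₀ : ℝ, ∀ (n n' : G) (τ₁ τ₂ τ₁' τ₂' : ℝ) (A : Finset G) (C' : List G),
    τ₁ ≤ τ₂ → τ₁' ≤ τ₂' → Generic C' → C'.length + 1 = N →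
    (∀ g ∈ C', g ∈ A → Ahead n τ₂ g ∧ Ahead n' τ₂' g) →
    (∀ g ∈ C', g ∉ A → Behind n τ₁ g ∧ Behind n' τ₁' g) →
    dist (gam n τ₁) (gam n' τ₁') ≤ C₀ → dist (gam n τ₂) (gam n' τ₂') ≤ C₀ →
    |gt n A C' (gam n τ₁) (gam n τ₂) - gt n' A C' (gam n' τ₁') (gam n' τ₂')| ≤ K₀

end Pool.Agent.Helper11.BC
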