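import Pool.Agent.Helper11.BC.Blocks

/-!
# Project BC: the second layer (measurability, for a continuous primitive)

The ultralimit of an equicontinuous family is continuous, so the evaluation of the data at
boundary points stays continuous in the other variables; at most two boundary points occur in
every list of the proof, and they are moved to `∞` and `0` by the group.
-/

open scoped MatrixGroups UpperHalfPlane
open Filter Topology

namespace Pool.Agent.Helper11.BC

instance instMeasG : MeasurableSpace G := borel G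
instance instBorelG : BorelSpace G := ⟨rfl⟩

/-- A point with a mark: `true` for interior points, `false` for boundary points. -/
def gpt (b : Bool) (g : G) : GP := if b then GP.int g else GP.bdp g

/-- The list of the points with the marks `k` and the frames `x`. -/
def pat {m : ℕ} (k : Fin m → Bool) (x : Fin m → G) : List GP := List.ofFn fun i => gpt (k i) (x i)

/-- The boundary points of the pattern are pairwise different. -/
def EndsDiff {m : ℕ} (k : Fin m → Bool) (x : Fin m → G) : Prop :=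
  ∀ i j, k i = false → k j = false → i ≠ j → ¬ SameEnd (x i) (x j)

/-- Equicontinuity of the interior data (to be proved with block POT). -/
structure PSys.Equi {N : ℕ} (P : PSys N) : Prop where
  growth : ∀ X s t, X.length = N → |P.F X s t| ≤ P.C * dist s t
  tend : ∀ (g : G) (s t : ℍ) (ε : ℝ), 0 < ε → ∀ᶠ k in 𝓝 (1 : G), ∀ l₁ l₂ : List G,
    (l₁ ++ g :: l₂).length = N →
      |P.F (l₁ ++ (g * k) :: l₂) s t - P.F (l₁ ++ g :: l₂) s t| ≤ ε
  f0_cont : Continuous fun p : ℍ × (Fin (N + 1) → G) => P.f0 p.1 (List.ofFn p.2)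

open Classical in
/-- Measurability of the evaluated data. -/
structure Sys.Meas {N : ℕ} (S : Sys N) : Prop where
  f0_meas : Measurable fun p : ℍ × (Fin (N + 1) → G) =>
    S.f0 p.1 ((List.ofFn p.2).map GP.int)
  F_meas : ∀ k : Fin N → Bool, (Finset.univ.filter fun i => k i = false).card ≤ 2 →
    Measurable fun p : (Fin N → G) × ℍ × ℍ =>
      if EndsDiff k p.1 then S.F (pat k p.1) p.2.1 p.2.2 else 0

/-- The elements with mark `true` are ahead, the others behind, for some parameters. -/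
def Typed {m : ℕ} (n : G) (a : Fin m → Bool) (x : Fin m → G) : Prop :=
  (∀ i, a i = true → (n⁻¹ * x i) 0 0 ≠ 0) ∧ ∀ i, a i = false → (n⁻¹ * x i) 1 0 ≠ 0

/-- The set of the elements with mark `true`. -/
noncomputable def marked {m : ℕ} (a : Fin m → Bool) (x : Fin m → G) : Finset G := by
  classical exact (Finset.univ.filter fun i => a i = true).image x

open Classical in
/-- Measurability of the functions `gt`. -/
def Neck.Meas {N : ℕ} {S : Sys N} (K : Neck S) : Prop :=
  ∀ a : Fin (N - 1) → Bool, Measurable fun p : G × (Fin (N - 1) → G) × ℍ × ℍ =>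
    if Generic (List.ofFn p.2.1) ∧ Typed p.1 a p.2.1 then
      K.gt p.1 (marked a p.2.1) (List.ofFn p.2.1) p.2.2.1 p.2.2.2 else 0

/-- EVAL, second layer (helper34). -/
theorem exists_sys_meas {N : ℕ} (P : PSys N) (hP : P.Equi) :
    ∃ S : Sys N, S.Meas ∧ ∀ W : List G, W.length = N + 2 → S.fW (W.map GP.int) = P.fW W := by
  sorry

/-- NECK, second layer (helper14, helper59). -/
theorem exists_neck_meas {N : ℕ} (hN : 3 ≤ N) (S : Sys N) (hS : S.Meas) :
    ∃ K : Neck S, K.Meas := by
  sorry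

open Classical in
/-- GLOB, second layer (helper17). -/
theorem main_of_neck_meas {N : ℕ} (hN : 2 ≤ N) (S : Sys N) (hS : S.Meas) (K : Neck S)
    (hK : K.Meas) :
    ∃ (ψ : List G → ℝ) (M : ℝ),
      (Measurable fun x : Fin (N + 1) → G => if Generic (List.ofFn x) then ψ (List.ofFn x) else 0) ∧
      (∀ Y, Generic Y → Y.length = N + 1 → |ψ Y| ≤ M) ∧
      (∀ (g : G) Y, ψ (Y.map (g * ·)) = ψ Y) ∧
      ∀ W, Generic W → W.length = N + 2 → dl ψ W = S.fW (W.map GP.int) := by
  sorry

/-- POT, second layer (helper24). -/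
theorem exists_psys_equi {N : ℕ} (hN : 2 ≤ N) (b : List ℍ → ℝ) (M : ℝ) (hb : IsCoc (N + 1) b M) :
    ∃ P : PSys N, P.Equi ∧ ∀ W : List G, W.length = N + 2 → P.fW W = sm b (W.map pos) := by
  sorry

open Classical in
/-- RED, second layer (helper87): the primitive is continuous. -/
theorem reduction_meas {N : ℕ}
    (H : ∀ (b : List ℍ → ℝ) (M : ℝ), IsCoc (N + 1) b M →
      ∃ (ψ : List G → ℝ) (M' : ℝ),
        (Measurable fun x : Fin (N + 1) → G => if Generic (List.ofFn x) then ψ (List.ofFn x) else 0) ∧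
        (∀ Y, Generic Y → Y.length = N + 1 → |ψ Y| ≤ M') ∧
        (∀ (g : G) Y, ψ (Y.map (g * ·)) = ψ Y) ∧
        ∀ W, Generic W → W.length = N + 2 → dl ψ W = sm b (W.map pos))
    (b : (Fin (N + 2) → G) → ℝ) (hc : Continuous b)
    (hi : ∀ (g : G) (x : Fin (N + 2) → G), b (fun j => g * x j) = b x)
    (hb : ∃ C : ℝ, ∀ x, |b x| ≤ C)
    (hz : ∀ x : Fin (N + 3) → G,
      ∑ i : Fin (N + 3), (-1 : ℝ) ^ (i : ℕ) * b (fun j => x (Fin.succAbove i j)) = 0) :
    ∃ h : (Fin (N + 1) → G) → ℝ, Continuous h ∧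
      (∀ (g : G) (x : Fin (N + 1) → G), h (fun j => g * x j) = h x) ∧
      (∃ C : ℝ, ∀ x, |h x| ≤ C) ∧
      ∀ x : Fin (N + 2) → G,
        b x = ∑ i : Fin (N + 2), (-1 : ℝ) ^ (i : ℕ) * h (fun j => x (Fin.succAbove i j)) := by
  sorry

/-- The final theorem with a continuous primitive (degree `n = N + 1 ≥ 4`). -/
theorem final_cont {N : ℕ} (hN : 3 ≤ N) (b : (Fin (N + 2) → G) → ℝ) (hc : Continuous b)
    (hi : ∀ (g : G) (x : Fin (N + 2) → G), b (fun j => g * x j) = b x)
    (hb : ∃ C : ℝ, ∀ x, |b x| ≤ C)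
    (hz : ∀ x : Fin (N + 3) → G,
      ∑ i : Fin (N + 3), (-1 : ℝ) ^ (i : ℕ) * b (fun j => x (Fin.succAbove i j)) = 0) :
    ∃ h : (Fin (N + 1) → G) → ℝ, Continuous h ∧
      (∀ (g : G) (x : Fin (N + 1) → G), h (fun j => g * x j) = h x) ∧
      (∃ C : ℝ, ∀ x, |h x| ≤ C) ∧
      ∀ x : Fin (N + 2) → G,
        b x = ∑ i : Fin (N + 2), (-1 : ℝ) ^ (i : ℕ) * h (fun j => x (Fin.succAbove i j)) := by
  refine reduction_meas (fun b' M hb' => ?_) b hc hi hb hz
  obtain ⟨P, hP0, hP⟩ := exists_psys_equi (by omega) b' M hb'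
  obtain ⟨S, hS0, hS⟩ := exists_sys_meas P hP0
  obtain ⟨K, hK⟩ := exists_neck_meas hN S hS0
  obtain ⟨ψ, M', h0, h1, h2, h3⟩ := main_of_neck_meas (by omega) S hS0 K hK
  exact ⟨ψ, M', h0, h1, h2, fun W hW hl => by rw [h3 W hW hl, hS W hl, hP W hl]⟩

end Pool.Agent.Helper11.BC
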