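import Pool.Agent.Helper87.BCR.Main
import Pool.Agent.Helper24.BC.P_Jas
import Pool.Agent.Helper34.BC.Eval
import Pool.Agent.Helper14.BC.Final
import Pool.Agent.Helper59.BC.Neck2
import Pool.Agent.Helper17.BC.Main

/-!
# The continuous bounded cohomology of `SL(2, ℝ)` vanishes in all degrees at least three

The comparison map of `SL(2, ℝ)` is injective (hence bijective, as the continuous cohomology is
zero) in every degree `n ≥ 3`.
-/

set_option autoImplicit false

open scoped MatrixGroups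

namespace Pool.Agent.Helper11.BC.SLTwo

/-- The homogeneous coboundary of a cochain with `n` variables. -/
def d {n : ℕ} (h : (Fin n → SL(2, ℝ)) → ℝ) (x : Fin (n + 1) → SL(2, ℝ)) : ℝ :=
  ∑ i : Fin (n + 1), (-1 : ℝ) ^ (i : ℕ) * h (fun j => x (Fin.succAbove i j))

/-- A continuous bounded cochain with `n` variables (of degree `n - 1`), invariant under the
diagonal left action of `SL(2, ℝ)`. -/
structure CBInv {n : ℕ} (h : (Fin n → SL(2, ℝ)) → ℝ) : Prop where
  cont : Continuous h
  bounded : ∃ C : ℝ, ∀ x, |h x| ≤ C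
  inv : ∀ (g : SL(2, ℝ)) (x : Fin n → SL(2, ℝ)), h (fun j => g * x j) = h x

/-- For every `n ≥ 3`, every continuous bounded invariant cocycle of degree `n` on `SL(2, ℝ)` is the
coboundary of a continuous bounded invariant cochain of degree `n - 1`. -/
theorem result : ∀ n : ℕ, 3 ≤ n → ∀ b : (Fin (n + 1) → SL(2, ℝ)) → ℝ,
    CBInv b → (∀ x, d b x = 0) →
    ∃ h : (Fin n → SL(2, ℝ)) → ℝ, CBInv h ∧ ∀ x, b x = d h x := by
  intro n hn b hb hz
  obtain ⟨N, rfl⟩ : ∃ N, n = N + 1 := ⟨n - 1, by omega⟩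
  have key := Pool.Agent.Helper87.BCR.reduction_cont (N := N) (fun b' M hb' => ?_) b hb.cont
    hb.inv hb.bounded hz
  · obtain ⟨h, h1, h2, h3, h4⟩ := key
    exact ⟨h, ⟨h1, h3, h2⟩, h4⟩
  · obtain ⟨P, hP⟩ := Pool.Agent.Helper24.BC.exists_psys (by omega) b' M hb'
    obtain ⟨S, hS⟩ := Pool.Agent.Helper34.BC.exists_sys P
    obtain ⟨K⟩ : Nonempty (Pool.Agent.Helper11.BC.Neck S) := by
      rcases Nat.lt_or_ge N 3 with h | h
      · obtain rfl : N = 2 := by omega
        exact Pool.Agent.Helper59.BC.exists_neck2 S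
      · exact Pool.Agent.Helper14.BC.exists_neck h S
    obtain ⟨ψ, M', h1, h2, h3⟩ := Pool.Agent.Helper17.BC.main_of_neck (by omega) S K
    exact ⟨ψ, M', h1, h2, fun W hW hl => by rw [h3 W hW hl, hS W hl, hP W hl]⟩

end Pool.Agent.Helper11.BC.SLTwo
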